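import Pool.Agent.Lib.MP_2c6a66_lc.Coupling

/-! The mechanism attached to an arbitrary profile `w`. -/

namespace Pool.Agent.Lib.MP_2c6a66_lc.UB

open MeasureTheory Set
open Pool.Agent.Lib.MP_2c6a66_lc

noncomputable section

/-- profiles with bound `κ` -/
structure Prof (κ : ℝ) (w : ℝ → ℝ) : Prop where
  nonneg : ∀ x, 0 < x → 0 ≤ w x
  le_one : ∀ x, 0 < x → w x ≤ 1
  anti : ∀ x y, 0 < x → x ≤ y → w y ≤ w x
  symm : ∀ x, 0 < x → w x + w (1 / x) = 1
  star : ∀ x y, 0 < y → 1 + y ≤ x → y * w y + (x - 1 - y) * w x ≤ κ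

/-- probability that the machine with time `a` receives the job against time `b` -/
def m (w : ℝ → ℝ) (a b : ℝ) : ℝ :=
  if a = b then 1 / 2 else if b = 0 then 0 else if a = 0 then 1 else w (a / b)

variable {κ : ℝ} {w : ℝ → ℝ}

theorem Prof.one (hw : Prof κ w) : w 1 = 1 / 2 := by
  have := hw.symm 1 one_pos
  rw [div_one] at this
  linarith

theorem m_self (a : ℝ) : m w a a = 1 / 2 := by rw [m, if_pos rfl]

theorem m_zero {a : ℝ} (ha : 0 < a) : m w a 0 = 0 := by
  rw [m, if_neg ha.ne', if_pos rfl]

theorem zero_m {b : ℝ} (hb : 0 < b) : m w 0 b = 1 := by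
  rw [m, if_neg hb.ne, if_neg hb.ne', if_pos rfl]

theorem m_pos (hw : Prof κ w) {a b : ℝ} (ha : 0 < a) (hb : 0 < b) : m w a b = w (a / b) := by
  rw [m]
  split_ifs with h h1 h2
  · rw [h, div_self hb.ne', hw.one]
  · exact absurd h1 hb.ne'
  · exact absurd h2 ha.ne'
  · rfl

theorem m_add (hw : Prof κ w) {a b : ℝ} (ha : 0 ≤ a) (hb : 0 ≤ b) : m w a b + m w b a = 1 := by
  rcases ha.eq_or_lt with rfl | ha
  · rcases hb.eq_or_lt with rfl | hb
    · rw [m_self]; norm_num
    · rw [zero_m hb, m_zero hb]; norm_num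
  · rcases hb.eq_or_lt with rfl | hb
    · rw [zero_m ha, m_zero ha]; norm_num
    · rw [m_pos hw ha hb, m_pos hw hb ha]
      have := hw.symm (a / b) (by positivity)
      rwa [one_div_div] at this

theorem m_nonneg (hw : Prof κ w) {a b : ℝ} (ha : 0 ≤ a) (hb : 0 ≤ b) : 0 ≤ m w a b := by
  rcases ha.eq_or_lt with rfl | ha
  · rcases hb.eq_or_lt with rfl | hb
    · rw [m_self]; norm_num
    · rw [zero_m hb]; norm_num
  · rcases hb.eq_or_lt with rfl | hb
    · rw [m_zero ha]
    · rw [m_pos hw ha hb]; exact hw.nonneg _ (by positivity)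

theorem m_le_one (hw : Prof κ w) {a b : ℝ} (ha : 0 ≤ a) (hb : 0 ≤ b) : m w a b ≤ 1 := by
  have := m_add hw ha hb
  have := m_nonneg hw hb ha
  linarith

theorem m_anti (hw : Prof κ w) {a a' b : ℝ} (ha : 0 ≤ a) (hb : 0 ≤ b) (h : a ≤ a') :
    m w a' b ≤ m w a b := by
  rcases h.eq_or_lt with rfl | h
  · exact le_rfl
  have ha' : 0 < a' := ha.trans_lt h
  rcases hb.eq_or_lt with rfl | hb
  · rw [m_zero ha']; exact m_nonneg hw ha le_rfl
  rcases ha.eq_or_lt with rfl | ha
  · rw [zero_m hb]; exact m_le_one hw ha'.le hb.le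
  rw [m_pos hw ha' hb, m_pos hw ha hb]
  exact hw.anti _ _ (by positivity) (div_le_div_of_nonneg_right h.le hb.le)

theorem m_homog {a b l : ℝ} (hl : 0 < l) : m w (l * a) (l * b) = m w a b := by
  unfold m
  simp only [mul_right_inj' hl.ne', mul_eq_zero, hl.ne', false_or, mul_div_mul_left _ _ hl.ne']

theorem m_eq {c d : ℝ} (hc : 0 < c) : m w d c = m w (d / c) 1 := by
  have := m_homog (w := w) (a := d / c) (b := 1) hc
  rw [← this, mul_one, mul_div_cancel₀ _ hc.ne']

theorem Prof.kappa_nonneg (hw : Prof κ w) : 0 ≤ κ := by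
  have h1 := hw.star 2 1 one_pos (by norm_num)
  have h2 := hw.nonneg 1 one_pos
  linarith

/-- The key inequality. -/
theorem star (hw : Prof κ w) {x y : ℝ} (hy : 0 ≤ y) (hxy : y ≤ x) :
    m w x 1 * (x - 1 - y) + y * m w y 1 ≤ κ := by
  have hκ := hw.kappa_nonneg
  rcases hy.eq_or_lt with rfl | hy
  · rw [zero_mul, add_zero, sub_zero]
    rcases le_or_gt x 1 with hx | hx
    · have h0 := m_nonneg hw (w := w) (a := x) (b := 1) hxy zero_le_one
      nlinarith
    · have hx0 : 0 < x := one_pos.trans hx
      rw [m_pos hw hx0 one_pos, div_one]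
      refine le_of_forall_pos_le_add fun ε hε => ?_
      set d := min ε (x - 1) with hd
      have hd0 : 0 < d := lt_min hε (by linarith)
      have hd1 : d ≤ ε := min_le_left _ _
      have hd2 : d ≤ x - 1 := min_le_right _ _
      have h1 := hw.star x d hd0 (by linarith)
      have h2 := mul_nonneg hd0.le (hw.nonneg d hd0)
      have h3 := mul_le_mul_of_nonneg_left (hw.le_one x hx0) hd0.le
      linarith
  · have hx0 : 0 < x := hy.trans_le hxy
    rw [m_pos hw hx0 one_pos, m_pos hw hy one_pos, div_one, div_one]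
    rcases le_or_gt (1 + y) x with hx | hx
    · have := hw.star x y hy hx
      linarith
    · have h1 := hw.star (1 + y) y hy le_rfl
      have h2 := mul_nonneg (hw.nonneg x hx0) (by linarith : 0 ≤ 1 + y - x)
      have h3 : (1 + y - 1 - y) * w (1 + y) = 0 := by ring
      linarith

/-- what the pairing argument needs from one job: own cost `c`, other cost `d`, move
probability `q` -/
def Good (w : ℝ → ℝ) (c d q : ℝ) : Prop := (c = 0 ∧ d = 0) ∨ q = m w d c

theorem pairOK_of_good (hw : Prof κ w) {c d q c' d' q' : ℝ} (hc : 0 ≤ c) (hd : 0 ≤ d)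
    (hc' : 0 ≤ c') (hd' : 0 ≤ d') (hq0 : 0 ≤ q) (hq0' : 0 ≤ q')
    (h : Good w c d q) (h' : Good w c' d' q') : PairOK κ c d q c' d' q' := by
  have key : ∀ {c d q c' d' q' : ℝ}, 0 < c → 0 ≤ d → 0 < c' → 0 ≤ d' → q = m w d c →
      q' = m w d' c' → d' / c' ≤ d / c → (c * d' ≤ c' * d ∧ q ≤ q' ∧
    (c' * d - c * c' - c * d') * q + c * d' * q' ≤ κ * (c * c')) := by
    intro c d q c' d' q' hc hd hc' hd' hq hq' hr
    rw [div_le_div_iff₀ hc' hc] at hr
    refine ⟨by linarith, ?_, ?_⟩
    · rw [hq, hq', m_eq hc, m_eq hc']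
      exact m_anti hw (by positivity) zero_le_one (by rw [div_le_div_iff₀ hc' hc]; exact hr)
    · have := star hw (x := d / c) (y := d' / c') (by positivity)
        (by rw [div_le_div_iff₀ hc' hc]; exact hr)
      rw [← m_eq hc, ← m_eq hc', ← hq, ← hq'] at this
      have h2 := mul_le_mul_of_nonneg_left this (mul_pos hc hc').le
      have e : c * c' * (q * (d / c - 1 - d' / c') + d' / c' * q')
          = (c' * d - c * c' - c * d') * q + c * d' * q' := by
        field_simp
      rw [e] at h2
      linarith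
  rcases hc.eq_or_lt with h0 | h0
  · -- c = 0
    rcases hd.eq_or_lt with h1 | h1
    · rw [← h0, ← h1]
      rcases le_total q q' with h2 | h2
      · left; simp [h2]
      · right; simp [h2]
    · have hq : q = 0 := by
        rcases h with h | h
        · exact absurd h.2 h1.ne'
        · rw [h, ← h0, m_zero h1]
      rw [← h0, hq]
      left
      refine ⟨by nlinarith, hq0', by simp⟩
  rcases hc'.eq_or_lt with h0' | h0'
  · rcases hd'.eq_or_lt with h1 | h1
    · rw [← h0', ← h1]
      rcases le_total q q' with h2 | h2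
      · left; simp [h2]
      · right; simp [h2]
    · have hq : q' = 0 := by
        rcases h' with h | h
        · exact absurd h.2 h1.ne'
        · rw [h, ← h0', m_zero h1]
      rw [← h0', hq]
      right
      refine ⟨by nlinarith, hq0, by simp⟩
  have hq : q = m w d c := by
    rcases h with h | h
    · exact absurd h.1 h0.ne'
    · exact h
  have hq' : q' = m w d' c' := by
    rcases h' with h | h
    · exact absurd h.1 h0'.ne'
    · exact h
  rcases le_total (d' / c') (d / c) with hr | hr
  · exact Or.inl (key h0 hd h0' hd' hq hq' hr)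
  · right
    have := key h0' hd' h0 hd hq' hq hr
    refine ⟨this.1, this.2.1, ?_⟩
    have := this.2.2
    linarith

variable {n : ℕ}

/-- load of machine `i` with times `t` under assignment `σ` -/
def load (i : Fin 2) (t : Fin n → ℝ) (σ : Fin n → Fin 2) : ℝ := ∑ k with σ k = i, t k

/-- makespan -/
def mk (b : Fin 2 → Fin n → ℝ) (σ : Fin n → Fin 2) : ℝ := max (load 0 (b 0) σ) (load 1 (b 1) σ)

/-- an optimal assignment -/
def opt (b : Fin 2 → Fin n → ℝ) : Fin n → Fin 2 :=
  Classical.choose (Finite.exists_min (mk b))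

theorem opt_le (b : Fin 2 → Fin n → ℝ) (τ : Fin n → Fin 2) : mk b (opt b) ≤ mk b τ :=
  Classical.choose_spec (Finite.exists_min (mk b)) τ

/-- probability that job `k` is moved away from its optimal machine -/
def mv (w : ℝ → ℝ) (b : Fin 2 → Fin n → ℝ) (k : Fin n) : ℝ :=
  m w (b (1 - opt b k) k) (b (opt b k) k)

/-- the assignment as a function of the uniform variable -/
def asg (w : ℝ → ℝ) (b : Fin 2 → Fin n → ℝ) (U : ℝ) (k : Fin n) : Fin 2 :=
  if U ≤ mv w b k then 1 - opt b k else opt b k

theorem asg_measurable (b : Fin 2 → Fin n → ℝ) (σ : Fin n → Fin 2) :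
    MeasurableSet {U | asg w b U = σ} := by
  have : {U | asg w b U = σ} = ⋂ k, {U | asg w b U k = σ k} := by
    ext U; simp [funext_iff]
  rw [this]
  refine MeasurableSet.iInter fun k => ?_
  have hm : Measurable (fun U => asg w b U k) :=
    Measurable.ite measurableSet_Iic measurable_const measurable_const
  exact hm (measurableSet_singleton (σ k))

theorem fin2_ne {i j : Fin 2} (h : i ≠ j) : 1 - i = j := by
  revert i j; decide

theorem fin2_ne' (i : Fin 2) : 1 - i ≠ i := by
  revert i; decide

theorem ind_asg (b : Fin 2 → Fin n → ℝ) (U : ℝ) (k : Fin n) (i : Fin 2) :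
    (if asg w b U k = i then (1 : ℝ) else 0)
      = if opt b k = i then 1 - ind (mv w b k) U else ind (mv w b k) U := by
  unfold asg ind
  by_cases h : U ≤ mv w b k
  · simp only [if_pos h]
    by_cases h2 : opt b k = i
    · rw [if_pos h2, if_neg (by rw [h2]; exact fin2_ne' i)]; norm_num
    · rw [if_neg h2, if_pos (fin2_ne h2)]
  · simp only [if_neg h]
    by_cases h2 : opt b k = i
    · rw [if_pos h2, if_pos h2]; norm_num
    · rw [if_neg h2, if_neg h2]

section nn

variable {b : Fin 2 → Fin n → ℝ} (hw : Prof κ w) (hb : ∀ i k, 0 ≤ b i k)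

include hw hb

theorem mv_nonneg (k : Fin n) : 0 ≤ mv w b k := m_nonneg hw (hb _ _) (hb _ _)

theorem mv_le_one (k : Fin n) : mv w b k ≤ 1 := m_le_one hw (hb _ _) (hb _ _)

theorem marginal (k : Fin n) (i : Fin 2) :
    ∫ U in Ioc (0 : ℝ) 1, (if asg w b U k = i then (1 : ℝ) else 0) = m w (b i k) (b (1 - i) k) := by
  simp only [ind_asg]
  by_cases h : opt b k = i
  · simp only [if_pos h]
    have i1 : IntegrableOn (fun _ : ℝ => (1 : ℝ)) (Ioc 0 1) := integrable_const 1
    rw [integral_sub i1 (integrable_ind _), integral_ind (mv_nonneg hw hb k) (mv_le_one hw hb k)]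
    have := m_add hw (hb i k) (hb (1 - i) k)
    simp only [mv, h]
    simp
    linarith
  · simp only [if_neg h]
    rw [integral_ind (mv_nonneg hw hb k) (mv_le_one hw hb k), mv, fin2_ne h,
      ← fin2_ne h, show (1 : Fin 2) - (1 - opt b k) = opt b k by omega]

/-- expected load of machine `i` -/
theorem expected_load (t : Fin n → ℝ) (i : Fin 2) :
    ∑ σ, law (asg w b) σ * load i t σ = ∑ k, t k * m w (b i k) (b (1 - i) k) := by
  rw [sum_law _ (asg_measurable b)]
  have : ∀ U, load i t (asg w b U) = ∑ k, t k * (if asg w b U k = i then (1 : ℝ) else 0) := by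
    intro U
    simp [load, Finset.sum_filter]
  simp only [this]
  have hint : ∀ k, IntegrableOn (fun U => (if asg w b U k = i then (1 : ℝ) else 0)) (Ioc 0 1) := by
    intro k
    simp only [ind_asg]
    split_ifs
    · exact (integrable_const (1 : ℝ)).sub (integrable_ind _)
    · exact integrable_ind _
  rw [integral_finsetSum _ fun k _ => (hint k).const_mul _]
  refine Finset.sum_congr rfl fun k _ => ?_
  rw [integral_const_mul, marginal hw hb]

/-- The approximation guarantee. -/
theorem ratio (τ : Fin n → Fin 2) :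
    ∑ σ, law (asg w b) σ * mk b σ ≤ (1 + κ) * mk b τ := by
  have hκ := hw.kappa_nonneg
  refine le_trans ?_ (mul_le_mul_of_nonneg_left (opt_le b τ) (by linarith))
  rw [sum_law _ (asg_measurable b)]
  set T := mk b (opt b) with hT
  have h0T : load 0 (b 0) (opt b) ≤ T := le_max_left _ _
  have h1T : load 1 (b 1) (opt b) ≤ T := le_max_right _ _
  have hTn : 0 ≤ T := le_trans (Finset.sum_nonneg fun k _ => hb 0 k) h0T
  -- the slack job trick with any `T' > T`
  refine le_of_forall_pos_le_add fun ε hε => ?_
  set T' := T + ε / (1 + κ) with hT'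
  have hεκ : 0 < ε / (1 + κ) := by positivity
  have hT'pos : 0 < T' := by linarith
  let c : Option (Fin n) → ℝ := fun o => o.elim (T' - load 0 (b 0) (opt b))
    (fun k => if opt b k = 0 then b 0 k else 0)
  let d : Option (Fin n) → ℝ := fun o => o.elim 0 (fun k => if opt b k = 0 then b 1 k else 0)
  let q : Option (Fin n) → ℝ := fun o => o.elim (m w 0 (T' - load 0 (b 0) (opt b))) (mv w b)
  let c' : Option (Fin n) → ℝ := fun o => o.elim (T' - load 1 (b 1) (opt b))
    (fun k => if opt b k = 1 then b 1 k else 0)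
  let d' : Option (Fin n) → ℝ := fun o => o.elim 0 (fun k => if opt b k = 1 then b 0 k else 0)
  let q' : Option (Fin n) → ℝ := fun o => o.elim (m w 0 (T' - load 1 (b 1) (opt b))) (mv w b)
  have hc : ∀ o, 0 ≤ c o := by
    rintro (_ | k)
    · change 0 ≤ T' - load 0 (b 0) (opt b); linarith
    · change 0 ≤ if opt b k = 0 then b 0 k else 0
      split_ifs; exacts [hb _ _, le_rfl]
  have hd : ∀ o, 0 ≤ d o := by
    rintro (_ | k)
    · exact le_rfl
    · change 0 ≤ if opt b k = 0 then b 1 k else 0
      split_ifs; exacts [hb _ _, le_rfl]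
  have hc' : ∀ o, 0 ≤ c' o := by
    rintro (_ | k)
    · change 0 ≤ T' - load 1 (b 1) (opt b); linarith
    · change 0 ≤ if opt b k = 1 then b 1 k else 0
      split_ifs; exacts [hb _ _, le_rfl]
  have hd' : ∀ o, 0 ≤ d' o := by
    rintro (_ | k)
    · exact le_rfl
    · change 0 ≤ if opt b k = 1 then b 0 k else 0
      split_ifs; exacts [hb _ _, le_rfl]
  have hs0 : 0 ≤ T' - load 0 (b 0) (opt b) := by linarith
  have hs1 : 0 ≤ T' - load 1 (b 1) (opt b) := by linarith
  have hq0 : ∀ o, 0 ≤ q o := by
    rintro (_ | k)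
    exacts [m_nonneg hw le_rfl hs0, mv_nonneg hw hb k]
  have hq1 : ∀ o, q o ≤ 1 := by
    rintro (_ | k)
    exacts [m_le_one hw le_rfl hs0, mv_le_one hw hb k]
  have hq0' : ∀ o, 0 ≤ q' o := by
    rintro (_ | k)
    exacts [m_nonneg hw le_rfl hs1, mv_nonneg hw hb k]
  have hq1' : ∀ o, q' o ≤ 1 := by
    rintro (_ | k)
    exacts [m_le_one hw le_rfl hs1, mv_le_one hw hb k]
  have hsum : ∑ o, c o = T' := by
    rw [Fintype.sum_option]
    change T' - load 0 (b 0) (opt b) + ∑ k, (if opt b k = 0 then b 0 k else 0) = T'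
    rw [load, Finset.sum_filter]; ring
  have hsum' : ∑ o, c' o = T' := by
    rw [Fintype.sum_option]
    change T' - load 1 (b 1) (opt b) + ∑ k, (if opt b k = 1 then b 1 k else 0) = T'
    rw [load, Finset.sum_filter]; ring
  have hg : ∀ o, Good w (c o) (d o) (q o) := by
    rintro (_ | k)
    · exact Or.inr rfl
    · by_cases h : opt b k = 0
      · right
        change mv w b k = m w (if opt b k = 0 then b 1 k else 0) (if opt b k = 0 then b 0 k else 0)
        rw [if_pos h, if_pos h, mv, h]; rfl
      · left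
        change (if opt b k = 0 then b 0 k else 0) = 0 ∧ (if opt b k = 0 then b 1 k else 0) = 0
        rw [if_neg h, if_neg h]; exact ⟨rfl, rfl⟩
  have hg' : ∀ o, Good w (c' o) (d' o) (q' o) := by
    rintro (_ | k)
    · exact Or.inr rfl
    · by_cases h : opt b k = 1
      · right
        change mv w b k = m w (if opt b k = 1 then b 0 k else 0) (if opt b k = 1 then b 1 k else 0)
        rw [if_pos h, if_pos h, mv, h]; rfl
      · left
        change (if opt b k = 1 then b 1 k else 0) = 0 ∧ (if opt b k = 1 then b 0 k else 0) = 0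
        rw [if_neg h, if_neg h]; exact ⟨rfl, rfl⟩
  have hmain := coupling_bound κ T' hT'pos c d q c' d' q' hc hd hc' hd' hq0 hq1 hq0' hq1'
    hsum hsum' fun i j => pairOK_of_good hw (hc i) (hd i) (hc' j) (hd' j) (hq0 i) (hq0' j) (hg i)
      (hg' j)
  have hle : ∫ U in Ioc (0 : ℝ) 1, mk b (asg w b U) ≤
      ∫ U in Ioc (0 : ℝ) 1, max (∑ i, c i * (1 - ind (q i) U) + ∑ j, d' j * ind (q' j) U)
      (∑ j, c' j * (1 - ind (q' j) U) + ∑ i, d i * ind (q i) U) := by
    have hI : ∀ (q : Option (Fin n) → ℝ) (c : Option (Fin n) → ℝ),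
        IntegrableOn (fun U => ∑ i, c i * (1 - ind (q i) U)) (Ioc 0 1) := fun q c =>
      integrable_finsetSum _ fun i _ =>
            (((integrable_const (1 : ℝ)).sub (integrable_ind (q i))).const_mul _)
    have hI' : ∀ (q : Option (Fin n) → ℝ) (c : Option (Fin n) → ℝ),
        IntegrableOn (fun U => ∑ i, c i * ind (q i) U) (Ioc 0 1) := fun q c =>
      integrable_finsetSum _ fun i _ => ((integrable_ind (q i)).const_mul _)
    have hR : IntegrableOn (fun U => max (∑ i, c i * (1 - ind (q i) U) +
        ∑ j, d' j * ind (q' j) U) (∑ j, c' j * (1 - ind (q' j) U) + ∑ i, d i * ind (q i) U))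
        (Ioc 0 1) := Integrable.sup ((hI q c).add (hI' q' d')) ((hI q' c').add (hI' q d))
    have hpt : ∀ U, mk b (asg w b U) ≤ max (∑ i, c i * (1 - ind (q i) U) +
        ∑ j, d' j * ind (q' j) U) (∑ j, c' j * (1 - ind (q' j) U) + ∑ i, d i * ind (q i) U) := by
      intro U
      have hload : ∀ i : Fin 2, load i (b i) (asg w b U) =
          ∑ k, b i k * (if opt b k = i then 1 - ind (mv w b k) U else ind (mv w b k) U) := by
        intro i
        simp only [← ind_asg]
        simp [load, Finset.sum_filter]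
      apply max_le_max
      · rw [hload 0, Fintype.sum_option, Fintype.sum_option]
        have h1 : 0 ≤ c none * (1 - ind (q none) U) :=
          mul_nonneg (hc _) (by linarith [ind_le_one (q none) U])
        have h2 : 0 ≤ d' none * ind (q' none) U := mul_nonneg (hd' _) (ind_nonneg _ _)
        have h3 : ∑ k, b 0 k * (if opt b k = 0 then 1 - ind (mv w b k) U else ind (mv w b k) U)
            = ∑ k, c (some k) * (1 - ind (q (some k)) U) + ∑ k, d' (some k) * ind (q' (some k)) U
            := by
          rw [← Finset.sum_add_distrib]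
          refine Finset.sum_congr rfl fun k _ => ?_
          change _ = (if opt b k = 0 then b 0 k else 0) * (1 - ind (mv w b k) U) +
            (if opt b k = 1 then b 0 k else 0) * ind (mv w b k) U
          by_cases h : opt b k = 0
          · rw [if_pos h, if_pos h, if_neg (by rw [h]; decide)]; ring
          · rw [if_neg h, if_neg h, if_pos (by omega)]; ring
        rw [h3]
        linarith
      · rw [hload 1, Fintype.sum_option, Fintype.sum_option]
        have h1 : 0 ≤ c' none * (1 - ind (q' none) U) :=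
          mul_nonneg (hc' _) (by linarith [ind_le_one (q' none) U])
        have h2 : 0 ≤ d none * ind (q none) U := mul_nonneg (hd _) (ind_nonneg _ _)
        have h3 : ∑ k, b 1 k * (if opt b k = 1 then 1 - ind (mv w b k) U else ind (mv w b k) U)
            = ∑ k, c' (some k) * (1 - ind (q' (some k)) U) + ∑ k, d (some k) * ind (q (some k)) U
            := by
          rw [← Finset.sum_add_distrib]
          refine Finset.sum_congr rfl fun k _ => ?_
          change _ = (if opt b k = 1 then b 1 k else 0) * (1 - ind (mv w b k) U) +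
            (if opt b k = 0 then b 1 k else 0) * ind (mv w b k) U
          by_cases h : opt b k = 0
          · rw [if_pos h, if_neg (by rw [h]; decide), if_neg (by rw [h]; decide)]; ring
          · rw [if_neg h, if_pos (by omega), if_pos (by omega)]; ring
        rw [h3]
        linarith
    have hL : IntegrableOn (fun U => mk b (asg w b U)) (Ioc 0 1) := by
      have : (fun U => mk b (asg w b U)) =
          fun U => ∑ σ, ({U | asg w b U = σ} : Set ℝ).indicator (fun _ => mk b σ) U := by
        funext U
        simp [Set.indicator]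
      rw [this]
      exact integrable_finsetSum _ fun σ _ =>
        (integrable_const (mk b σ)).indicator (asg_measurable b σ)
    exact integral_mono hL hR hpt
  have := hle.trans hmain
  have e : (1 + κ) * T' = (1 + κ) * T + ε := by rw [hT']; field_simp
  linarith

end nn

/-- the payment to agent `i` -/
def pay (w : ℝ → ℝ) (b : Fin 2 → Fin n → ℝ) (i : Fin 2) : ℝ :=
  ∑ k, (b i k * m w (b i k) (b (1 - i) k) - ∫ s in (0 : ℝ)..(b i k), m w s (b (1 - i) k))

theorem m_intervalIntegrable (hw : Prof κ w) {x y o : ℝ} (hx : 0 ≤ x) (hy : 0 ≤ y)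
    (ho : 0 ≤ o) : IntervalIntegrable (fun s => m w s o) volume x y := by
  apply AntitoneOn.intervalIntegrable
  intro a ha a' ha' h
  have : 0 ≤ a := by
    rw [mem_uIcc] at ha
    rcases ha with h | h <;> linarith
  exact m_anti hw this ho h

/-- Monotonicity: the single job truthfulness inequality. -/
theorem single_truth (hw : Prof κ w) {t r o : ℝ} (ht : 0 ≤ t) (hr : 0 ≤ r) (ho : 0 ≤ o) :
    (r - t) * m w r o ≤ ∫ s in t..r, m w s o := by
  rcases le_total t r with h | h
  · have : ∫ s in t..r, m w r o ≤ ∫ s in t..r, m w s o := by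
      apply intervalIntegral.integral_mono_on h
      · exact intervalIntegrable_const
      · exact m_intervalIntegrable hw ht hr ho
      · intro s hs
        exact m_anti hw (ht.trans hs.1) ho hs.2
    rw [intervalIntegral.integral_const, smul_eq_mul] at this
    exact this
  · rw [intervalIntegral.integral_symm]
    have : ∫ s in r..t, m w s o ≤ ∫ s in r..t, m w r o := by
      apply intervalIntegral.integral_mono_on h
      · exact m_intervalIntegrable hw hr ht ho
      · exact intervalIntegrable_const
      · intro s hs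
        exact m_anti hw hr ho hs.1
    rw [intervalIntegral.integral_const, smul_eq_mul] at this
    linarith

theorem truthful (hw : Prof κ w) {b : Fin 2 → Fin n → ℝ} (hb : ∀ i k, 0 ≤ b i k) (i : Fin 2)
    {r : Fin n → ℝ} (hr : ∀ k, 0 ≤ r k) :
    pay w (Function.update b i r) i -
        ∑ σ, law (asg w (Function.update b i r)) σ * load i (b i) σ
      ≤ pay w b i - ∑ σ, law (asg w b) σ * load i (b i) σ := by
  have hb' : ∀ j k, 0 ≤ Function.update b i r j k := by
    intro j k
    by_cases h : j = i
    · subst h; rw [Function.update_self]; exact hr k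
    · rw [Function.update_of_ne h]; exact hb j k
  rw [expected_load hw hb', expected_load hw hb]
  simp only [pay, Function.update_self, Function.update_of_ne (fin2_ne' i)]
  rw [← Finset.sum_sub_distrib, ← Finset.sum_sub_distrib]
  refine Finset.sum_le_sum fun k _ => ?_
  have h1 := single_truth hw (hb i k) (hr k) (hb (1 - i) k)
  have h2 := intervalIntegral.integral_add_adjacent_intervals
    (m_intervalIntegrable hw le_rfl (hb i k) (hb (1 - i) k))
    (m_intervalIntegrable hw (hb i k) (hr k) (hb (1 - i) k))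
  rw [← h2]
  linarith

theorem law_sum_one (b : Fin 2 → Fin n → ℝ) : ∑ σ, law (asg w b) σ = 1 := by
  have := sum_law _ (asg_measurable (w := w) b) (fun _ => (1 : ℝ))
  simpa using this

end

end Pool.Agent.Lib.MP_2c6a66_lc.UB
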